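import Mathlib
import Pool.Agent.Helper20.Comm.Core
import Pool.Agent.Helper20.Comm.Bias

set_option autoImplicit false

/-!
Explicit hitting sets for branching programs that are concatenations of a bounded number of
blocks such that inside each block the transition maps commute and satisfy `f^3 = f`
(each input bit may be read any number of times, in any order).
-/

namespace Pool.Agent.Results.MP_92893d_lc.CommutingPrograms

open Finset

/-- A block over the state set `Q` working on `n` bits in `steps` steps: in step `t` it reads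
the bit `x (idx t)` and applies the map `step t (x (idx t))` to the state. -/
structure Block (Q : Type) (n : ℕ) where
  /-- number of steps -/
  steps : ℕ
  /-- the position read in each step -/
  idx : Fin steps → Fin n
  /-- transition maps -/
  step : Fin steps → Bool → Q → Q

/-- the state reached from `q` by the block on the bit string `x` -/
def Block.run {Q : Type} {n : ℕ} (B : Block Q n) (x : Fin n → Bool) (q : Q) : Q :=
  (List.finRange B.steps).foldl (fun q t => B.step t (x (B.idx t)) q) q

/-- all transition maps of the block commute with each other and satisfy `f ∘ f ∘ f = f` -/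
def Block.Good {Q : Type} {n : ℕ} (B : Block Q n) : Prop :=
  (∀ t u b c q, B.step t b (B.step u c q) = B.step u c (B.step t b q)) ∧
    ∀ t b q, B.step t b (B.step t b (B.step t b q)) = B.step t b q

/-- A program: an initial state, a list of blocks executed one after the other, and a set of
accepting states. -/
structure Program (Q : Type) (n : ℕ) where
  /-- initial state -/
  start : Q
  /-- the blocks -/
  blocks : List (Block Q n)
  /-- accepting states -/
  accept : Set Q

/-- the state reached on the bit string `x` -/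
def Program.run {Q : Type} {n : ℕ} (P : Program Q n) (x : Fin n → Bool) : Q :=
  P.blocks.foldl (fun q B => B.run x q) P.start

/-- the probability that a uniformly random bit string is accepted -/
noncomputable def Program.accProb {Q : Type} {n : ℕ} (P : Program Q n) : ℝ :=
  (Nat.card {x : Fin n → Bool // P.run x ∈ P.accept} : ℝ) / 2 ^ n

/-- the `n` bits `Tr (b * a ^ i)`, `i < n`, where `Tr` is the absolute trace of the field
with `2 ^ m` elements (`m ≥ 1`) -/
noncomputable def bits (m n : ℕ) (a b : GaloisField 2 m) : Fin n → Bool :=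
  fun i => decide (Algebra.trace (ZMod 2) (GaloisField 2 m) (b * a ^ (i : ℕ)) = 1)

/-- bit strings from vectors over `ZMod 2` -/
def toB {n : ℕ} (z : Fin n → ZMod 2) : Fin n → Bool := fun i => decide (z i = 1)

lemma toB_bijective (n : ℕ) : Function.Bijective (toB (n := n)) := by
  have hinj : ∀ t u : ZMod 2, decide (t = 1) = decide (u = 1) → t = u := by decide
  constructor
  · intro z z' h
    funext i
    exact hinj _ _ (congrFun h i)
  · intro x
    refine ⟨fun i => if x i then 1 else 0, ?_⟩
    funext i
    cases h : x i <;> simp [toB, h]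

/-- the coset statement for one block -/
lemma block_coset {Q : Type} [Fintype Q] {n : ℕ} (B : Block Q n) (hB : B.Good) (q : Q)
    (y : Fin n → ZMod 2) (N : ℕ)
    (hN : N ≤ Nat.card {x : Fin n → ZMod 2 // B.run (toB x) q = B.run (toB y) q}) :
    ∃ L : AddSubgroup (Fin n → ZMod 2),
      (∀ x, x - y ∈ L → B.run (toB x) q = B.run (toB y) q) ∧
      N * L.index ≤ 2 ^ n * Fintype.card Q ^ 2 := by
  classical
  obtain ⟨hcomm, hcube⟩ := hB
  let gen : Set (Function.End Q) :=
    Set.range (fun p : Fin B.steps × Bool => B.step p.1 p.2)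
  have hgen : ∀ f ∈ gen, ∀ g ∈ gen, f * g = g * f := by
    rintro _ ⟨⟨i, b⟩, rfl⟩ _ ⟨⟨j, c⟩, rfl⟩
    funext q
    exact hcomm i j b c q
  let M := Submonoid.closure gen
  have hc : IsMulCommutative (Submonoid.closure gen) :=
    Submonoid.isMulCommutative_closure (Function.End Q) hgen
  letI instM : CommMonoid M :=
    { (inferInstance : Monoid M) with mul_comm := fun a b => hc.is_comm.comm a b }
  let f : Fin B.steps → ZMod 2 → M := fun t u =>
    ⟨B.step t (decide (u = 1)), Submonoid.subset_closure ⟨(t, decide (u = 1)), rfl⟩⟩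
  have hf : ∀ t u, f t u ^ 3 = f t u := by
    intro t u
    rw [pow_succ, pow_succ, pow_one]
    apply Subtype.ext
    funext q
    exact hcube t (decide (u = 1)) q
  let s : Fin n → ZMod 2 → M := fun i u => ∏ t ∈ univ.filter (fun t => B.idx t = i), f t u
  have hs : ∀ i u, s i u ^ 3 = s i u := by
    intro i u
    change (∏ t ∈ univ.filter (fun t => B.idx t = i), f t u) ^ 3
      = ∏ t ∈ univ.filter (fun t => B.idx t = i), f t u
    rw [← Finset.prod_pow]
    exact Finset.prod_congr rfl (fun t _ => hf t u)
  have hval : ∀ z : Fin n → ZMod 2, ∏ t, f t (z (B.idx t)) = Helper20.Comm.val s z := by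
    intro z
    rw [Helper20.Comm.val, ← Finset.prod_fiberwise univ B.idx]
    apply Finset.prod_congr rfl
    intro i _
    change _ = ∏ t ∈ univ.filter (fun t => B.idx t = i), f t (z i)
    apply Finset.prod_congr rfl
    intro t ht
    rw [Finset.mem_filter] at ht
    rw [ht.2]
  have hrun : ∀ (z : Fin n → ZMod 2), B.run (toB z) q = Helper20.Comm.val s z • q := by
    intro z
    have h : ∀ (l : List (Fin B.steps)) (q : Q),
        l.foldl (fun q t => B.step t (toB z (B.idx t)) q) q
          = (l.map (fun t => f t (z (B.idx t)))).prod • q := by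
      intro l
      induction l with
      | nil => intro q; simp
      | cons i l ih =>
        intro q
        rw [List.foldl_cons, ih, List.map_cons, List.prod_cons, mul_comm, mul_smul]
        rfl
    rw [Block.run, h, ← hval, Fin.prod_univ_def]
  have hN' : N ≤ (univ.filter (fun x : Fin n → ZMod 2 =>
      Helper20.Comm.val s x • q = Helper20.Comm.val s y • q)).card := by
    refine hN.trans (le_of_eq ?_)
    rw [Nat.card_eq_fintype_card, Fintype.card_subtype]
    congr 1
    ext x
    simp only [Finset.mem_filter, Finset.mem_univ, true_and]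
    rw [hrun, hrun]
  obtain ⟨L, hL, hidx⟩ := Helper20.Comm.exists_coset s hs q y N hN'
  exact ⟨L, fun x hx => by rw [hrun, hrun]; exact hL x hx, hidx⟩

/-- the state after the first `j` blocks -/
def state {Q : Type} {n : ℕ} (P : Program Q n) (x : Fin n → Bool) (j : ℕ) : Q :=
  (P.blocks.take j).foldl (fun q B => B.run x q) P.start

theorem result (Q : Type) [Fintype Q] (n w m : ℕ) (P : Program Q n)
    (hw : Fintype.card Q ≤ w) (hgood : ∀ B ∈ P.blocks, B.Good)
    (δ : ℝ) (hδ : 0 < δ) (hP : δ ≤ P.accProb)
    (hm : (n : ℝ) * ((w : ℝ) ^ (P.blocks.length + 2)) ^ P.blocks.length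
      < δ ^ P.blocks.length * 2 ^ m) :
    ∃ a b : GaloisField 2 m, P.run (bits m n a b) ∈ P.accept := by
  classical
  set c := P.blocks.length with hc
  have hstate_succ : ∀ (x : Fin n → Bool) (j : Fin c),
      state P x (j + 1) = (P.blocks[(j : ℕ)]).run x (state P x j) := by
    intro x j
    rw [state, state, List.take_succ_eq_append_getElem j.2, List.foldl_append]
    rfl
  have hstate_zero : ∀ x, state P x 0 = P.start := fun x => by simp [state]
  have hstate_end : ∀ x, state P x c = P.run x := by
    intro x
    rw [state, hc, List.take_length]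
    rfl
  -- accepted strings
  set A : Finset (Fin n → ZMod 2) := univ.filter (fun z => P.run (toB z) ∈ P.accept) with hA
  have hAcard : (A.card : ℝ) = P.accProb * 2 ^ n := by
    rw [Program.accProb, div_mul_cancel₀ _ (by positivity)]
    congr 1
    have e : A.card = Nat.card {z : Fin n → ZMod 2 // P.run (toB z) ∈ P.accept} := by
      rw [Nat.card_eq_fintype_card, Fintype.card_subtype]
    rw [e]
    exact Nat.card_congr ((Equiv.ofBijective toB (toB_bijective n)).subtypeEquiv
      (fun z => Iff.rfl))
  have hApos' : (0 : ℝ) < A.card := by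
    rw [hAcard]
    have : 0 < P.accProb := lt_of_lt_of_le hδ hP
    positivity
  have hQ : 0 < Fintype.card Q := Fintype.card_pos_iff.2 ⟨P.start⟩
  have hQ' : (0 : ℝ) < Fintype.card Q := by exact_mod_cast hQ
  let path : (Fin n → ZMod 2) → (Fin c → Q) := fun z j => state P (toB z) (j + 1)
  obtain ⟨r, -, hr⟩ := Finset.exists_le_card_fiber_of_nsmul_le_card_of_maps_to
    (s := A) (t := (univ : Finset (Fin c → Q))) (f := path)
    (b := (A.card : ℝ) / (Fintype.card Q : ℝ) ^ c) (fun _ _ => Finset.mem_univ _)
    ⟨fun _ => P.start, Finset.mem_univ _⟩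
    (by
      rw [Finset.card_univ, nsmul_eq_mul, Fintype.card_fun, Fintype.card_fin]
      push_cast
      rw [mul_div_cancel₀ _ (by positivity)])
  set N := (A.filter (fun z => path z = r)).card with hN
  have hNpos : (0 : ℝ) < N := lt_of_lt_of_le (by positivity) hr
  have hNpos' : 0 < N := by exact_mod_cast hNpos
  obtain ⟨y, hy⟩ := Finset.card_pos.1 hNpos'
  rw [Finset.mem_filter] at hy
  have hyA : P.run (toB y) ∈ P.accept := by
    have := hy.1
    rw [hA, Finset.mem_filter] at this
    exact this.2
  -- strings of the fibre follow the path of y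
  have hfollow : ∀ z ∈ A.filter (fun z => path z = r), ∀ j : ℕ, j ≤ c →
      state P (toB z) j = state P (toB y) j := by
    intro z hz j hj
    rw [Finset.mem_filter] at hz
    rcases j with _ | j
    · rw [hstate_zero, hstate_zero]
    · have h1 := congrFun (hz.2.trans hy.2.symm) ⟨j, hj⟩
      exact h1
  have hblock : ∀ j : Fin c, ∃ L : AddSubgroup (Fin n → ZMod 2),
      (∀ x, x - y ∈ L → (P.blocks[(j : ℕ)]).run (toB x) (state P (toB y) j)
        = (P.blocks[(j : ℕ)]).run (toB y) (state P (toB y) j)) ∧
      N * L.index ≤ 2 ^ n * Fintype.card Q ^ 2 := by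
    intro j
    apply block_coset _ (hgood _ (List.getElem_mem _))
    rw [Nat.card_eq_fintype_card, Fintype.card_subtype, hN]
    apply Finset.card_le_card
    intro z hz
    rw [Finset.mem_filter]
    refine ⟨Finset.mem_univ _, ?_⟩
    have h1 := hfollow z hz j j.2.le
    have h2 := hfollow z hz (j + 1) j.2
    rw [hstate_succ, hstate_succ, h1] at h2
    exact h2
  choose L hL hidx using hblock
  -- real estimate for each index
  have h1 : δ * 2 ^ n / (Fintype.card Q : ℝ) ^ c ≤ (N : ℝ) := by
    refine le_trans ?_ hr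
    rw [hAcard]
    gcongr
  have h2 : ∀ j, δ * ((L j).index : ℝ) ≤ (w : ℝ) ^ (c + 2) := by
    intro j
    have h3 : (N : ℝ) * (L j).index ≤ 2 ^ n * (Fintype.card Q : ℝ) ^ 2 := by
      exact_mod_cast hidx j
    have h4 : δ * 2 ^ n / (Fintype.card Q : ℝ) ^ c * (L j).index
        ≤ 2 ^ n * (Fintype.card Q : ℝ) ^ 2 := le_trans (by gcongr) h3
    have e1 : δ * 2 ^ n / (Fintype.card Q : ℝ) ^ c * (L j).index
        = (2 ^ n / (Fintype.card Q : ℝ) ^ c) * (δ * (L j).index) := by ring
    have e2 : 2 ^ n * (Fintype.card Q : ℝ) ^ 2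
        = (2 ^ n / (Fintype.card Q : ℝ) ^ c) * (Fintype.card Q : ℝ) ^ (c + 2) := by
      rw [pow_add]; field_simp
    rw [e1, e2] at h4
    have h5 := le_of_mul_le_mul_left h4 (by positivity)
    refine h5.trans ?_
    have : (Fintype.card Q : ℝ) ≤ w := by exact_mod_cast hw
    gcongr
  have h3 : (((⨅ j, L j).index : ℕ) : ℝ) ≤ ∏ j, ((L j).index : ℝ) := by
    have := AddSubgroup.index_iInf_le L
    exact_mod_cast this
  have h4 : δ ^ c * (((⨅ j, L j).index : ℕ) : ℝ) ≤ ((w : ℝ) ^ (c + 2)) ^ c := by
    calc δ ^ c * (((⨅ j, L j).index : ℕ) : ℝ) ≤ δ ^ c * ∏ j, ((L j).index : ℝ) := by gcongr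
      _ = ∏ j : Fin c, (δ * ((L j).index : ℝ)) := by
        rw [Finset.prod_mul_distrib, Finset.prod_const, Finset.card_univ, Fintype.card_fin]
      _ ≤ ∏ _j : Fin c, (w : ℝ) ^ (c + 2) :=
        Finset.prod_le_prod (fun j _ => by positivity) (fun j _ => h2 j)
      _ = ((w : ℝ) ^ (c + 2)) ^ c := by
        rw [Finset.prod_const, Finset.card_univ, Fintype.card_fin]
  have h5 : (n : ℝ) * (((⨅ j, L j).index : ℕ) : ℝ) < 2 ^ m := by
    have h6 : δ ^ c * ((n : ℝ) * (((⨅ j, L j).index : ℕ) : ℝ)) < δ ^ c * 2 ^ m := by
      calc δ ^ c * ((n : ℝ) * (((⨅ j, L j).index : ℕ) : ℝ))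
          = n * (δ ^ c * (((⨅ j, L j).index : ℕ) : ℝ)) := by ring
        _ ≤ n * ((w : ℝ) ^ (c + 2)) ^ c := by gcongr
        _ < δ ^ c * 2 ^ m := hm
    exact lt_of_mul_lt_mul_left h6 (by positivity)
  have h5' : n * (⨅ j, L j).index < 2 ^ m := by exact_mod_cast h5
  have : Fintype (GaloisField 2 m) := Fintype.ofFinite _
  have hcardF : n * (⨅ j, L j).index < Fintype.card (GaloisField 2 m) := by
    by_cases hm0 : m = 0
    · rw [hm0, pow_zero] at h5'
      exact lt_of_lt_of_le h5' Fintype.card_pos
    · rw [← Nat.card_eq_fintype_card, GaloisField.card 2 m hm0]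
      exact h5'
  obtain ⟨a, b, hab⟩ := Helper20.Comm.hit_coset (F := GaloisField 2 m) n (⨅ j, L j) y hcardF
  refine ⟨a, b, ?_⟩
  have e : bits m n a b = toB (Helper20.Comm.str n a b) := rfl
  rw [e]
  set x := Helper20.Comm.str n a b with hx
  have hsame : ∀ j : ℕ, j ≤ c → state P (toB x) j = state P (toB y) j := by
    intro j
    induction j with
    | zero => intro _; rw [hstate_zero, hstate_zero]
    | succ j ih =>
      intro hj
      have e1 := hstate_succ (toB x) ⟨j, hj⟩
      have e2 := hstate_succ (toB y) ⟨j, hj⟩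
      simp only at e1 e2
      rw [e1, e2, ih (Nat.le_of_succ_le hj)]
      exact hL ⟨j, hj⟩ x (AddSubgroup.mem_iInf.1 hab ⟨j, hj⟩)
  rw [← hstate_end, hsame c le_rfl, hstate_end]
  exact hyA

end Pool.Agent.Results.MP_92893d_lc.CommutingPrograms
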